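import Pool.Agent.Y980.ID.Final

/-!
# MP_6ad96e_pr: non infinite divisibility of the log total mass in the whole `L²` phase
-/

set_option autoImplicit false

namespace Pool.Agent.Results.MP_6ad96e_pr.NotInfDivWholeL2Phase

open MeasureTheory Pool.Agent.Y980.ID

/-- In every dimension `d ≥ 1` and for every intermittency parameter `0 < μ < d` there are an
admissible kernel `g` (even, positive definite, `g(x) = log⁺ (1/|x|) + h(x)` with `h` bounded and
continuous) and a ball `D = B(0, R)` such that, with the weight `φ = 1`, no law `ζ` of the total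
mass of `D` (limit in law of the regularised masses along some sequence `ε_k → 0+`) has an
infinitely divisible logarithm. -/
theorem result (d : ℕ) (hd : 1 ≤ d) (μ : ℝ) (hμ0 : 0 < μ) (hμ : μ < d) :
    ∃ g : EuclideanSpace ℝ (Fin d) → ℝ, Admissible g ∧ ∃ R : ℝ, 0 < R ∧
      ∀ ζ : Measure ℝ, IsProbabilityMeasure ζ → IsTotalMassLaw g μ 0 R (fun _ => 1) ζ →
        ¬ IsInfDiv (ζ.map Real.log) :=
  main hd hμ0 hμ

end Pool.Agent.Results.MP_6ad96e_pr.NotInfDivWholeL2Phase
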